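import Pool.Agent.N990.PT.Stm

/-!
# PT/UNI: uniqueness of the Gibbs state for bounded effective couplings (project of helper990)
-/

set_option autoImplicit false
open MeasureTheory Filter
open scoped ENNReal Topology
open Pool.Agent.N988.EA Pool.Agent.N990.PT

namespace Pool.Agent.N118.PT

noncomputable section

theorem den_pos {q : ℕ} (hq : 2 ≤ q) (K : ℝ) (τ : Bool → Fin q) :
    0 < ∑ a : Fin q, Real.exp (K * ((if a = τ false then 1 else 0) +
      if a = τ true then 1 else 0)) := by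
  have : Nonempty (Fin q) := ⟨⟨0, by omega⟩⟩
  exact Finset.sum_pos (fun a _ => Real.exp_pos _) Finset.univ_nonempty

theorem mw_sum {q : ℕ} (hq : 2 ≤ q) (K : ℝ) (τ : Bool → Fin q) : ∑ c, mw K τ c = 1 := by
  unfold mw
  rw [← Finset.sum_div, div_self (den_pos hq K τ).ne']

theorem mw_ge {q : ℕ} (hq : 2 ≤ q) {K C : ℝ} (hK : |K| ≤ C) (τ : Bool → Fin q) (c : Fin q) :
    Real.exp (-(4 * C)) / q ≤ mw K τ c := by
  have hC : 0 ≤ C := (abs_nonneg K).trans hK
  have hq0 : (0 : ℝ) < q := by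
    have : 0 < q := by omega
    exact_mod_cast this
  have hx : ∀ a : Fin q, |K * ((if a = τ false then (1 : ℝ) else 0) +
      if a = τ true then (1 : ℝ) else 0)| ≤ 2 * C := by
    intro a
    rw [abs_mul]
    have h2 : |((if a = τ false then (1 : ℝ) else 0) + if a = τ true then (1 : ℝ) else 0)| ≤ 2 := by
      split_ifs <;> norm_num
    calc _ ≤ C * 2 := mul_le_mul hK h2 (abs_nonneg _) hC
      _ = 2 * C := by ring
  have h1 : Real.exp (-(2 * C)) ≤ Real.exp (K * ((if c = τ false then (1 : ℝ) else 0) +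
      if c = τ true then (1 : ℝ) else 0)) := Real.exp_le_exp.2 (neg_le_of_abs_le (hx c))
  have h2 : ∑ a : Fin q, Real.exp (K * ((if a = τ false then (1 : ℝ) else 0) +
      if a = τ true then (1 : ℝ) else 0)) ≤ q * Real.exp (2 * C) := by
    calc _ ≤ ∑ _a : Fin q, Real.exp (2 * C) :=
          Finset.sum_le_sum fun a _ => Real.exp_le_exp.2 (le_of_abs_le (hx a))
      _ = q * Real.exp (2 * C) := by
          rw [Finset.sum_const, Finset.card_univ, Fintype.card_fin, nsmul_eq_mul]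
  unfold mw
  rw [div_le_div_iff₀ hq0 (den_pos hq K τ)]
  have h3 : Real.exp (-(2 * C)) = Real.exp (-(4 * C)) * Real.exp (2 * C) := by
    rw [← Real.exp_add]
    congr 1
    ring
  calc _ ≤ Real.exp (-(4 * C)) * (q * Real.exp (2 * C)) :=
        mul_le_mul_of_nonneg_left h2 (Real.exp_pos _).le
    _ = Real.exp (-(2 * C)) * q := by
        rw [h3]
        ring
    _ ≤ _ := mul_le_mul_of_nonneg_right h1 hq0.le

/-- averages -/
theorem avg {q : ℕ} (w : Fin q → ℝ) (hw : ∑ c, w c = 1) (δ : ℝ) (hδ : ∀ c, δ ≤ w c)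
    (x : Fin q → ℝ) (A : ℝ) (hx : ∀ c, A ≤ x c) :
    A + δ * ∑ c, (x c - A) ≤ ∑ c, w c * x c := by
  have h1 : ∑ c, w c * x c = ∑ c, w c * (x c - A) + A := by
    have : ∑ c, w c * x c = ∑ c, (w c * (x c - A) + w c * A) :=
      Finset.sum_congr rfl fun c _ => by ring
    rw [this, Finset.sum_add_distrib, ← Finset.sum_mul, hw, one_mul]
  have h2 : δ * ∑ c, (x c - A) ≤ ∑ c, w c * (x c - A) := by
    rw [Finset.mul_sum]
    exact Finset.sum_le_sum fun c _ => mul_le_mul_of_nonneg_right (hδ c) (sub_nonneg.2 (hx c))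
  rw [h1]
  linarith

theorem avg0 {q : ℕ} (w : Fin q → ℝ) (hw : ∑ c, w c = 1) (h0 : ∀ c, 0 ≤ w c)
    (x : Fin q → ℝ) (A : ℝ) (hx : ∀ c, A ≤ x c) : A ≤ ∑ c, w c * x c := by
  have := avg w hw 0 h0 x A hx
  linarith

/-- one step -/
def TT {b q : ℕ} (β : ℝ) (p : ℕ → Fin b × Bool) (n : ℕ) (f : (Bool → Fin q) → ℝ)
    (τ : Bool → Fin q) : ℝ :=
  ∑ c, mw (Kf b q β n) τ c * f (fun t => if t = (p n).2 then τ t else c)

/-- `k` steps -/
def It {b q : ℕ} (β : ℝ) (p : ℕ → Fin b × Bool) (n : ℕ) (f : (Bool → Fin q) → ℝ) :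
    ℕ → (Bool → Fin q) → ℝ
  | 0 => f
  | k + 1 => TT β p (n + k) (It β p n f k)

theorem It_neg {b q : ℕ} (β : ℝ) (p : ℕ → Fin b × Bool) (n : ℕ) (f : (Bool → Fin q) → ℝ) (k : ℕ)
    (τ : Bool → Fin q) : It β p n (fun σ => -f σ) k τ = -It β p n f k τ := by
  induction k generalizing τ with
  | zero => rfl
  | succ k ih =>
    show TT β p (n + k) (It β p n (fun σ => -f σ) k) τ = -TT β p (n + k) (It β p n f k) τ
    unfold TT
    rw [← Finset.sum_neg_distrib]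
    refine Finset.sum_congr rfl fun c _ => ?_
    rw [ih]
    ring

/-- the sum over all values -/
def SS {q : ℕ} (s : Bool) (f : (Bool → Fin q) → ℝ) : ℝ :=
  ∑ x : Fin q, ∑ c : Fin q, f (fun t => if t = s then x else c)

theorem lower {b q : ℕ} (hq : 2 ≤ q) (β : ℝ) (p : ℕ → Fin b × Bool)
    (hp : ∀ (s : Bool) (k : ℕ), ∃ n, k ≤ n ∧ (p n).2 = s) (δ : ℝ) (hδ0 : 0 ≤ δ)
    (hδ : ∀ n (τ : Bool → Fin q) c, δ ≤ mw (Kf b q β n) τ c) (n m : ℕ) (hm : n + 1 ≤ m)
    (hms : (p m).2 = !(p n).2) (f : (Bool → Fin q) → ℝ) (A : ℝ) (hA : ∀ τ, A ≤ f τ)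
    (τ : Bool → Fin q) :
    A + δ * (δ * (SS (p n).2 f - (q : ℝ) * q * A)) ≤ It β p n f (m - n + 1) τ := by
  have hw0 : ∀ n (τ : Bool → Fin q) c, 0 ≤ mw (Kf b q β n) τ c := fun n τ c => hδ0.trans (hδ n τ c)
  obtain ⟨s, hs⟩ : ∃ s, s = (p n).2 := ⟨_, rfl⟩
  obtain ⟨h, hh⟩ : ∃ h : Fin q → ℝ, ∀ x, h x =
      A + δ * ∑ c, (f (fun t => if t = s then x else c) - A) := ⟨_, fun x => rfl⟩
  have hhA : ∀ x, A ≤ h x := by
    intro x
    rw [hh]
    have : 0 ≤ δ * ∑ c, (f (fun t => if t = s then x else c) - A) :=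
      mul_nonneg hδ0 (Finset.sum_nonneg fun c _ => sub_nonneg.2 (hA _))
    linarith
  have hH : A + δ * (δ * (SS (p n).2 f - (q : ℝ) * q * A)) = A + δ * ∑ x, (h x - A) := by
    have h1 : ∑ x, (h x - A) = δ * (SS s f - (q : ℝ) * q * A) := by
      have h2 : ∀ x, h x - A = δ * (∑ c, f (fun t => if t = s then x else c) - q * A) := by
        intro x
        rw [hh, Finset.sum_sub_distrib, Finset.sum_const, Finset.card_univ, Fintype.card_fin,
          nsmul_eq_mul]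
        ring
      rw [Finset.sum_congr rfl fun x _ => h2 x, ← Finset.mul_sum, Finset.sum_sub_distrib,
        Finset.sum_const, Finset.card_univ, Fintype.card_fin, nsmul_eq_mul]
      unfold SS
      ring
    rw [h1, hs]
  rw [hH]
  obtain ⟨H, hHd⟩ : ∃ H, H = A + δ * ∑ x, (h x - A) := ⟨_, rfl⟩
  rw [← hHd]
  -- the steps
  have stepH : ∀ (j : ℕ) (F : (Bool → Fin q) → ℝ), (∀ τ, H ≤ F τ) → ∀ τ, H ≤ TT β p j F τ := by
    intro j F hF τ
    exact avg0 _ (mw_sum hq _ τ) (hw0 j τ) _ H fun c => hF _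
  have steph : ∀ (j : ℕ) (F : (Bool → Fin q) → ℝ), (∀ τ, h (τ s) ≤ F τ) → (p j).2 = s →
      ∀ τ, h (τ s) ≤ TT β p j F τ := by
    intro j F hF hj τ
    refine avg0 _ (mw_sum hq _ τ) (hw0 j τ) _ _ fun c => ?_
    have := hF (fun t => if t = (p j).2 then τ t else c)
    rw [hj] at this ⊢
    simpa using this
  have stephH : ∀ (j : ℕ) (F : (Bool → Fin q) → ℝ), (∀ τ, h (τ s) ≤ F τ) → (p j).2 = !s →
      ∀ τ, H ≤ TT β p j F τ := by
    intro j F hF hj τ
    have h1 : H ≤ ∑ c, mw (Kf b q β j) τ c * h c := by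
      rw [hHd]
      exact avg _ (mw_sum hq _ τ) δ (hδ j τ) h A hhA
    refine h1.trans (Finset.sum_le_sum fun c _ => mul_le_mul_of_nonneg_left ?_ (hw0 j τ c))
    have h2 := hF (fun t => if t = (p j).2 then τ t else c)
    have h3 : ¬ s = (p j).2 := by
      rw [hj]
      cases s <;> decide
    simpa [h3] using h2
  have hind : ∀ k : ℕ, (∀ τ, h (τ s) ≤ It β p n f (k + 1) τ) ∨ ∀ τ, H ≤ It β p n f (k + 1) τ := by
    intro k
    induction k with
    | zero =>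
      left
      intro τ
      show h (τ s) ≤ TT β p (n + 0) f τ
      rw [hh]
      have := avg (mw (Kf b q β n) τ) (mw_sum hq _ τ) δ (hδ n τ)
        (fun c => f (fun t => if t = (p n).2 then τ t else c)) A fun c => hA _
      refine le_trans (le_of_eq ?_) this
      congr 2
      refine Finset.sum_congr rfl fun c _ => ?_
      congr 2
      funext t
      rw [← hs]
      by_cases ht : t = s
      · rw [if_pos ht, if_pos ht, ht]
      · rw [if_neg ht, if_neg ht]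
    | succ k ih =>
      rcases ih with h1 | h1
      · by_cases hj : (p (n + (k + 1))).2 = s
        · left
          exact steph _ _ h1 hj
        · right
          refine stephH _ _ h1 ?_
          revert hj
          cases (p (n + (k + 1))).2 <;> cases s <;> decide
      · right
        exact stepH _ _ h1
  obtain ⟨k, hk⟩ : ∃ k, m = n + (k + 1) := ⟨m - n - 1, by omega⟩
  have hk2 : m - n = k + 1 := by omega
  rw [hk2]
  show H ≤ TT β p (n + (k + 1)) (It β p n f (k + 1)) τ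
  rw [← hk]
  rcases hind k with h1 | h1
  · exact stephH m _ h1 (by rw [hms, hs]) τ
  · exact stepH m _ h1 τ

theorem contr {b q : ℕ} (hq : 2 ≤ q) (β : ℝ) (p : ℕ → Fin b × Bool)
    (hp : ∀ (s : Bool) (k : ℕ), ∃ n, k ≤ n ∧ (p n).2 = s) (δ : ℝ) (hδ0 : 0 ≤ δ)
    (hδ : ∀ n (τ : Bool → Fin q) c, δ ≤ mw (Kf b q β n) τ c) (n : ℕ)
    (f : (Bool → Fin q) → ℝ) (A B : ℝ) (hA : ∀ τ, A ≤ f τ) (hB : ∀ τ, f τ ≤ B) :
    ∃ (k : ℕ) (A' B' : ℝ), B' - A' ≤ (1 - (δ * q) ^ 2) * (B - A) ∧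
      ∀ τ, A' ≤ It β p n f k τ ∧ It β p n f k τ ≤ B' := by
  obtain ⟨m, hm, hms⟩ := hp (!(p n).2) (n + 1)
  refine ⟨m - n + 1, A + δ * (δ * (SS (p n).2 f - (q : ℝ) * q * A)),
    B - δ * (δ * ((q : ℝ) * q * B - SS (p n).2 f)), ?_, fun τ => ⟨?_, ?_⟩⟩
  · refine le_of_eq ?_
    ring
  · exact lower hq β p hp δ hδ0 hδ n m hm hms f A hA τ
  · have h1 := lower hq β p hp δ hδ0 hδ n m hm hms (fun σ => -f σ) (-B)
      (fun τ => neg_le_neg (hB τ)) τ
    rw [It_neg] at h1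
    have h2 : SS (p n).2 (fun σ : Bool → Fin q => -f σ) = -SS (p n).2 f := by
      unfold SS
      simp only [Finset.sum_neg_distrib]
    rw [h2] at h1
    have h3 : B - δ * (δ * ((q : ℝ) * q * B - SS (p n).2 f)) =
        -(-B + δ * (δ * (-SS (p n).2 f - (q : ℝ) * q * -B))) := by ring
    rw [h3]
    linarith

theorem ends_meas {b q : ℕ} (p : ℕ → Fin b × Bool) (n : ℕ) :
    Measurable (ends p n : (VInf p → Fin q) → Bool → Fin q) :=
  measurable_pi_lambda _ fun t => measurable_pi_apply _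

theorem int_ends {b q : ℕ} (p : ℕ → Fin b × Bool) (n : ℕ) (μ : Measure (VInf p → Fin q))
    [IsProbabilityMeasure μ] (f : (Bool → Fin q) → ℝ) :
    Integrable (fun ω => f (ends p n ω)) μ := by
  have hf : Measurable f := measurable_of_finite f
  refine Integrable.of_bound (hf.comp (ends_meas p n)).aestronglyMeasurable (∑ τ, |f τ|)
    (Eventually.of_forall fun ω => ?_)
  rw [Real.norm_eq_abs]
  exact Finset.single_le_sum (f := fun τ => |f τ|) (fun τ _ => abs_nonneg _)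
    (Finset.mem_univ (ends p n ω))

theorem It_int {b q : ℕ} (h1 : S_TOP) (hq : 2 ≤ q) (β : ℝ) (p : ℕ → Fin b × Bool)
    (μ : Measure (VInf p → Fin q)) (hμ : IsGibbs β p μ) (n : ℕ) (f : (Bool → Fin q) → ℝ) (k : ℕ) :
    ∫ ω, f (ends p n ω) ∂μ = ∫ ω, It β p n f k (ends p (n + k) ω) ∂μ := by
  induction k with
  | zero => rfl
  | succ k ih =>
    rw [ih]
    exact h1 b q hq β p μ hμ (n + k) (It β p n f k)

theorem bounds {b q : ℕ} (h1 : S_TOP) (hq : 2 ≤ q) (β : ℝ) (p : ℕ → Fin b × Bool)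
    (hp : ∀ (s : Bool) (k : ℕ), ∃ n, k ≤ n ∧ (p n).2 = s) (δ : ℝ) (hδ0 : 0 ≤ δ)
    (hδ1 : (δ * q) ^ 2 ≤ 1)
    (hδ : ∀ n (τ : Bool → Fin q) c, δ ≤ mw (Kf b q β n) τ c) (N : ℕ) :
    ∀ (n : ℕ) (f : (Bool → Fin q) → ℝ) (A B : ℝ), (∀ τ, A ≤ f τ) → (∀ τ, f τ ≤ B) →
    ∃ A' B' : ℝ, B' - A' ≤ (1 - (δ * q) ^ 2) ^ N * (B - A) ∧
      ∀ μ : Measure (VInf p → Fin q), IsGibbs β p μ →
        A' ≤ ∫ ω, f (ends p n ω) ∂μ ∧ ∫ ω, f (ends p n ω) ∂μ ≤ B' := by
  induction N with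
  | zero =>
    intro n f A B hA hB
    refine ⟨A, B, by rw [pow_zero, one_mul], fun μ hμ => ?_⟩
    have := hμ.prob
    constructor
    · calc A = ∫ _ω, A ∂μ := by rw [integral_const, probReal_univ, one_smul]
        _ ≤ _ := integral_mono (integrable_const A) (int_ends p n μ f) fun ω => hA _
    · calc _ ≤ ∫ _ω, B ∂μ := integral_mono (int_ends p n μ f) (integrable_const B) fun ω => hB _
        _ = B := by rw [integral_const, probReal_univ, one_smul]
  | succ N ih =>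
    intro n f A B hA hB
    obtain ⟨k, A1, B1, h2, h3⟩ := contr hq β p hp δ hδ0 hδ n f A B hA hB
    obtain ⟨A', B', h4, h5⟩ := ih (n + k) (It β p n f k) A1 B1 (fun τ => (h3 τ).1)
      fun τ => (h3 τ).2
    refine ⟨A', B', ?_, fun μ hμ => ?_⟩
    · calc B' - A' ≤ (1 - (δ * q) ^ 2) ^ N * (B1 - A1) := h4
        _ ≤ (1 - (δ * q) ^ 2) ^ N * ((1 - (δ * q) ^ 2) * (B - A)) :=
            mul_le_mul_of_nonneg_left h2 (pow_nonneg (by linarith) N)
        _ = _ := by ring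
    · rw [It_int h1 hq β p μ hμ n f k]
      exact h5 μ hμ

theorem t_uni (h1 : Pool.Agent.N990.PT.S_TOP) (h2 : Pool.Agent.N990.PT.S_DET)
    (_h3 : Pool.Agent.N990.PT.S_GEO) : Pool.Agent.N990.PT.S_UNI := by
  intro b q hq β p hp hC μ μ' hμ hμ'
  obtain ⟨C, hC⟩ := hC
  refine h2 b q β p μ μ' hμ hμ' fun n f => ?_
  have hq0 : (0 : ℝ) < q := by
    have : 0 < q := by omega
    exact_mod_cast this
  have hC0 : 0 ≤ C := (abs_nonneg _).trans (hC 0)
  obtain ⟨δ, hδd⟩ : ∃ δ : ℝ, δ = Real.exp (-(4 * C)) / q := ⟨_, rfl⟩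
  have hδ0 : 0 ≤ δ := by
    rw [hδd]
    positivity
  have hδq : δ * q = Real.exp (-(4 * C)) := by
    rw [hδd]
    field_simp
  have hδq1 : δ * q ≤ 1 := by
    rw [hδq]
    exact Real.exp_le_one_iff.2 (by linarith)
  have hδq0 : 0 < δ * q := by
    rw [hδq]
    exact Real.exp_pos _
  have hδ1 : (δ * q) ^ 2 ≤ 1 := pow_le_one₀ hδq0.le hδq1
  have hδ : ∀ n (τ : Bool → Fin q) c, δ ≤ mw (Kf b q β n) τ c := by
    intro n τ c
    rw [hδd]
    exact mw_ge hq (hC n) τ c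
  obtain ⟨M, hM⟩ : ∃ M : ℝ, ∀ τ, |f τ| ≤ M := ⟨∑ τ, |f τ|, fun τ =>
    Finset.single_le_sum (f := fun τ => |f τ|) (fun τ _ => abs_nonneg _) (Finset.mem_univ τ)⟩
  have hN : ∀ N : ℕ, |∫ ω, f (ends p n ω) ∂μ - ∫ ω, f (ends p n ω) ∂μ'| ≤
      (1 - (δ * q) ^ 2) ^ N * (M - -M) := by
    intro N
    obtain ⟨A', B', h4, h5⟩ := bounds h1 hq β p hp δ hδ0 hδ1 hδ N n f (-M) M
      (fun τ => neg_le_of_abs_le (hM τ)) fun τ => le_of_abs_le (hM τ)
    obtain ⟨a1, a2⟩ := h5 μ hμ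
    obtain ⟨b1, b2⟩ := h5 μ' hμ'
    rw [abs_le]
    constructor <;> linarith
  have hlim : Tendsto (fun N : ℕ => (1 - (δ * q) ^ 2) ^ N * (M - -M)) atTop (𝓝 (0 * (M - -M))) := by
    refine Tendsto.mul_const _ (tendsto_pow_atTop_nhds_zero_of_lt_one (by linarith) ?_)
    have : 0 < (δ * q) ^ 2 := by positivity
    linarith
  rw [zero_mul] at hlim
  have h6 := ge_of_tendsto' hlim hN
  exact sub_eq_zero.1 (abs_eq_zero.1 (le_antisymm h6 (abs_nonneg _)))

end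

end Pool.Agent.N118.PT
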